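import Mathlib

/-!
An isometry invariant measure of full support on a compact metric space.
-/

set_option autoImplicit false

universe u

namespace Pool.Agent.J4H61.PM

open MeasureTheory Set Filter Topology

section Iso
variable (K : Type u) [MetricSpace K]

/-- The group of isometries of `K`. -/
def IG : Type u := K ≃ᵢ K

instance : Group (IG K) := inferInstanceAs (Group (K ≃ᵢ K))

instance : FunLike (IG K) K K := inferInstanceAs (FunLike (K ≃ᵢ K) K K)

variable {K}

theorem IG.ext {f g : IG K} (h : ∀ x, f x = g x) : f = g := IsometryEquiv.ext h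

theorem IG.mul_apply (f g : IG K) (x : K) : (f * g) x = f (g x) := rfl

theorem IG.one_apply (x : K) : (1 : IG K) x = x := rfl

theorem IG.inv_self (f : IG K) (x : K) : f⁻¹ (f x) = x := IsometryEquiv.symm_apply_apply (f : K ≃ᵢ K) x

theorem IG.self_inv (f : IG K) (x : K) : f (f⁻¹ x) = x := IsometryEquiv.apply_symm_apply (f : K ≃ᵢ K) x

theorem IG.dist_map (f : IG K) (x y : K) : dist (f x) (f y) = dist x y :=
  IsometryEquiv.dist_eq (f : K ≃ᵢ K) x y

theorem IG.continuous (f : IG K) : Continuous f := (IsometryEquiv.isometry (f : K ≃ᵢ K)).continuous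

variable [CompactSpace K]

/-- isometries as continuous maps -/
def toC (f : IG K) : C(K, K) := ⟨f, f.continuous⟩

theorem toC_injective : Function.Injective (toC (K := K)) := by
  intro f g h
  refine IG.ext fun x => ?_
  exact congrArg (fun c : C(K, K) => c x) h

noncomputable instance : MetricSpace (IG K) :=
  MetricSpace.induced (toC (K := K)) toC_injective inferInstance

theorem toC_isometry : Isometry (toC (K := K)) := Isometry.of_dist_eq fun _ _ => rfl

theorem dist_le_iff {f g : IG K} {c : ℝ} (hc : 0 ≤ c) :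
    dist f g ≤ c ↔ ∀ x, dist (f x) (g x) ≤ c := ContinuousMap.dist_le (f := toC f) (g := toC g) hc

theorem dist_apply_le (f g : IG K) (x : K) : dist (f x) (g x) ≤ dist f g :=
  (dist_le_iff dist_nonneg).1 le_rfl x

theorem dist_inv_inv_le (f g : IG K) : dist f⁻¹ g⁻¹ ≤ dist f g := by
  rw [dist_le_iff dist_nonneg]
  intro x
  calc dist (f⁻¹ x) (g⁻¹ x) = dist (f (f⁻¹ x)) (f (g⁻¹ x)) := (f.dist_map _ _).symm
    _ = dist (g (g⁻¹ x)) (f (g⁻¹ x)) := by rw [f.self_inv, g.self_inv]
    _ = dist (f (g⁻¹ x)) (g (g⁻¹ x)) := dist_comm _ _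
    _ ≤ dist f g := dist_apply_le f g _

theorem dist_mul_mul_le (f g f' g' : IG K) : dist (f * g) (f' * g') ≤ dist f f' + dist g g' := by
  rw [dist_le_iff (by positivity)]
  intro x
  rw [IG.mul_apply, IG.mul_apply]
  calc dist (f (g x)) (f' (g' x)) ≤ dist (f (g x)) (f (g' x)) + dist (f (g' x)) (f' (g' x)) :=
        dist_triangle _ _ _
    _ = dist (g x) (g' x) + dist (f (g' x)) (f' (g' x)) := by rw [f.dist_map]
    _ ≤ dist g g' + dist f f' := add_le_add (dist_apply_le _ _ _) (dist_apply_le _ _ _)
    _ = dist f f' + dist g g' := add_comm _ _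

instance : IsTopologicalGroup (IG K) where
  continuous_mul := by
    refine (LipschitzWith.of_dist_le_mul (K := 2) fun p q => ?_).continuous
    refine (dist_mul_mul_le p.1 p.2 q.1 q.2).trans ?_
    rw [Prod.dist_eq]
    have h1 := le_max_left (dist p.1 q.1) (dist p.2 q.2)
    have h2 := le_max_right (dist p.1 q.1) (dist p.2 q.2)
    push_cast
    linarith
  continuous_inv := by
    refine (LipschitzWith.of_dist_le_mul (K := 1) fun p q => ?_).continuous
    simpa using dist_inv_inv_le p q

theorem continuous_act : Continuous fun p : IG K × K => p.1 p.2 := by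
  refine (LipschitzWith.of_dist_le_mul (K := 2) fun p q => ?_).continuous
  have h1 := le_max_left (dist p.1 q.1) (dist p.2 q.2)
  have h2 := le_max_right (dist p.1 q.1) (dist p.2 q.2)
  have h3 : dist (p.1 p.2) (q.1 q.2) ≤ dist (p.1 p.2) (p.1 q.2) + dist (p.1 q.2) (q.1 q.2) :=
    dist_triangle _ _ _
  have h4 := dist_apply_le p.1 q.1 q.2
  rw [p.1.dist_map] at h3
  rw [Prod.dist_eq]
  push_cast
  linarith

/-- a sequence of isometries has a convergent subsequence -/
theorem exists_subseq (v : ℕ → IG K) : ∃ (f : C(K, K)) (φ : ℕ → ℕ), StrictMono φ ∧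
    (∀ x y, dist (f x) (f y) = dist x y) ∧ Tendsto (fun n => toC (v (φ n))) atTop (𝓝 f) := by
  let e := ContinuousMap.isometryEquivBoundedOfCompact K K
  let S : Set (BoundedContinuousFunction K K) := {F | ∀ x y, dist (F x) (F y) = dist x y}
  have hcl : IsClosed S := by
    have : S = ⋂ x : K, ⋂ y : K, {F : BoundedContinuousFunction K K | dist (F x) (F y) = dist x y} := by
      ext F
      simp [S]
    rw [this]
    refine isClosed_iInter fun x => isClosed_iInter fun y => isClosed_eq ?_ continuous_const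
    exact (continuous_eval_const x).dist (continuous_eval_const y)
  have heq : Equicontinuous ((↑) : S → K → K) := by
    refine UniformEquicontinuous.equicontinuous ?_
    refine Metric.uniformEquicontinuous_of_continuity_modulus (b := fun t => t) ?_ _ ?_
    · exact tendsto_id
    · intro x y F
      exact (F.2 x y).le
  have hS : IsCompact S := BoundedContinuousFunction.arzela_ascoli₁ S hcl heq
  have hv : ∀ n, e (toC (v n)) ∈ S := fun n x y => (v n).dist_map x y
  obtain ⟨F, hF, φ, hφ, hlim⟩ := hS.tendsto_subseq hv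
  refine ⟨e.symm F, φ, hφ, fun x y => hF x y, ?_⟩
  have h2 := (e.symm.continuous.tendsto F).comp hlim
  refine h2.congr fun n => ?_
  simp [Function.comp]

instance : CompactSpace (IG K) := by
  rw [← isCompact_univ_iff]
  refine IsSeqCompact.isCompact ?_
  intro v _
  obtain ⟨f, φ, hφ, hf, hl⟩ := exists_subseq v
  obtain ⟨g, ψ, hψ, hg, hl'⟩ := exists_subseq fun n => (v (φ n))⁻¹
  have hl2 : Tendsto (fun n => toC (v (φ (ψ n)))) atTop (𝓝 f) := hl.comp hψ.tendsto_atTop
  have ev : ∀ x, Tendsto (fun n => v (φ (ψ n)) x) atTop (𝓝 (f x)) := fun x =>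
    ((continuous_eval_const x).tendsto f).comp hl2
  have ev' : ∀ x, Tendsto (fun n => (v (φ (ψ n)))⁻¹ x) atTop (𝓝 (g x)) := fun x =>
    ((continuous_eval_const x).tendsto g).comp hl'
  have hfg : ∀ x, f (g x) = x := by
    intro x
    have h1 : Tendsto (fun n => dist (v (φ (ψ n)) (g x)) (v (φ (ψ n)) ((v (φ (ψ n)))⁻¹ x)))
        atTop (𝓝 (dist (f (g x)) x)) := by
      refine (ev (g x)).dist ?_
      simp only [IG.self_inv]
      exact tendsto_const_nhds
    have h2 : Tendsto (fun n => dist (v (φ (ψ n)) (g x)) (v (φ (ψ n)) ((v (φ (ψ n)))⁻¹ x)))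
        atTop (𝓝 (dist (g x) (g x))) := by
      simp only [IG.dist_map]
      exact tendsto_const_nhds.dist (ev' x)
    have h3 := tendsto_nhds_unique h1 h2
    rw [dist_self] at h3
    exact dist_eq_zero.1 h3
  have hgf : ∀ x, g (f x) = x := by
    intro x
    have h : f (g (f x)) = f x := hfg (f x)
    have h' := hf (g (f x)) x
    rw [h, dist_self] at h'
    exact dist_eq_zero.1 h'.symm
  let F : IG K := (⟨⟨f, g, hgf, hfg⟩, Isometry.of_dist_eq hf⟩ : K ≃ᵢ K)
  refine ⟨F, mem_univ _, fun n => φ (ψ n), hφ.comp hψ, ?_⟩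
  rw [tendsto_iff_dist_tendsto_zero] at hl2 ⊢
  exact hl2

end Iso

section Measure
variable (K : Type u) [MetricSpace K] [CompactSpace K] [Nonempty K] [MeasurableSpace K] [BorelSpace K]

/-- a finite measure of full support -/
theorem exists_open_pos : ∃ μ : Measure K, IsFiniteMeasure μ ∧ μ.IsOpenPosMeasure := by
  let μ : Measure K := Measure.sum fun n : ℕ =>
    ((2 : ENNReal)⁻¹ ^ (n + 1)) • Measure.dirac (TopologicalSpace.denseSeq K n)
  refine ⟨μ, ⟨?_⟩, ⟨?_⟩⟩
  · have : μ univ = ∑' n : ℕ, ((2 : ENNReal)⁻¹ ^ (n + 1)) := by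
      simp [μ, Measure.sum_apply _ MeasurableSet.univ]
    rw [this, ENNReal.tsum_geometric_add_one]
    rw [ENNReal.one_sub_inv_two, inv_inv]
    refine ENNReal.mul_lt_top (ENNReal.inv_lt_top.2 (by norm_num)) (by norm_num)
  · intro U hU hne
    obtain ⟨x, hx, ⟨n, rfl⟩⟩ := (TopologicalSpace.denseRange_denseSeq K).inter_open_nonempty U hU hne
    rw [Measure.sum_apply _ hU.measurableSet]
    intro h
    rw [ENNReal.tsum_eq_zero] at h
    have := h n
    simp [hx] at this

theorem exists_measure : ∃ μ : Measure K, IsFiniteMeasure μ ∧ μ.IsOpenPosMeasure ∧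
    ∀ g : IG K, MeasurePreserving g μ μ := by
  obtain ⟨μ0, h0, h0'⟩ := exists_open_pos K
  let _ : MeasurableSpace (IG K) := borel _
  have _ : BorelSpace (IG K) := ⟨rfl⟩
  let ν : Measure (IG K × K) := (Measure.haar : Measure (IG K)).prod μ0
  let act : IG K × K → K := fun p => p.1 p.2
  have hact : Continuous act := continuous_act
  have hsurj : Function.Surjective act := fun x => ⟨(1, x), rfl⟩
  refine ⟨ν.map act, inferInstance, hact.isOpenPosMeasure_map hsurj, fun g => ⟨g.continuous.measurable, ?_⟩⟩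
  have h1 : MeasurePreserving (Prod.map (fun f : IG K => g * f) (id : K → K)) ν ν :=
    (measurePreserving_mul_left (Measure.haar : Measure (IG K)) g).prod (MeasurePreserving.id μ0)
  rw [Measure.map_map g.continuous.measurable hact.measurable]
  have h2 : (g ∘ act) = act ∘ (Prod.map (fun f : IG K => g * f) (id : K → K)) := by
    funext p
    rfl
  rw [h2, ← Measure.map_map hact.measurable h1.measurable, h1.map_eq]

end Measure

end Pool.Agent.J4H61.PM
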