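import Pool.Agent.J4H61.PM.A

/-!
The operator with kernel `dist` for an invariant measure; its eigenfunctions see the whole isometry group.
-/

set_option autoImplicit false

universe u v

namespace Pool.Agent.J4H61.PM

open MeasureTheory Set Filter Topology Module

section Op
variable {K : Type u} [MetricSpace K] [CompactSpace K]

/-- the function `dist x` -/
noncomputable def kf (x : K) : C(K, ℝ) := ⟨fun y => dist x y, by fun_prop⟩

theorem kf_dist (x y : K) : ‖kf x - kf y‖ ≤ dist x y := by
  rw [ContinuousMap.norm_le _ dist_nonneg]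
  intro z
  show |dist x z - dist y z| ≤ dist x y
  exact abs_dist_sub_le x y z

theorem kf_norm (x : K) : ‖kf x‖ ≤ Metric.diam (univ : Set K) := by
  rw [ContinuousMap.norm_le _ Metric.diam_nonneg]
  intro z
  show |dist x z| ≤ _
  rw [abs_of_nonneg dist_nonneg]
  exact Metric.dist_le_diam_of_mem isCompact_univ.isBounded (mem_univ _) (mem_univ _)

theorem isCompact_lip (R L : ℝ) : IsCompact {c : C(K, ℝ) | (∀ x, |c x| ≤ R) ∧
    ∀ x y, |c x - c y| ≤ L * dist x y} := by
  let e := ContinuousMap.isometryEquivBoundedOfCompact K ℝ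
  let S : Set (BoundedContinuousFunction K ℝ) := {F | (∀ x, |F x| ≤ R) ∧ ∀ x y, |F x - F y| ≤ L * dist x y}
  have hcl : IsClosed S := by
    have : S = (⋂ x : K, {F : BoundedContinuousFunction K ℝ | |F x| ≤ R}) ∩
        ⋂ x : K, ⋂ y : K, {F : BoundedContinuousFunction K ℝ | |F x - F y| ≤ L * dist x y} := by
      ext F
      simp [S]
    rw [this]
    refine (isClosed_iInter fun x => isClosed_le ?_ continuous_const).inter
      (isClosed_iInter fun x => isClosed_iInter fun y => isClosed_le ?_ continuous_const)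
    · exact (continuous_eval_const x).abs
    · exact ((continuous_eval_const x).sub (continuous_eval_const y)).abs
  have heq : Equicontinuous ((↑) : S → K → ℝ) := by
    refine UniformEquicontinuous.equicontinuous ?_
    refine Metric.uniformEquicontinuous_of_continuity_modulus (b := fun t => L * t) ?_ _ ?_
    · have : Tendsto (fun t : ℝ => L * t) (𝓝 0) (𝓝 (L * 0)) := tendsto_id.const_mul L
      simpa using this
    · intro x y F
      exact F.2.2 x y
  have hS : IsCompact S := by
    refine BoundedContinuousFunction.arzela_ascoli₂ (Icc (-R) R) isCompact_Icc S hcl ?_ heq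
    intro F x hF
    exact abs_le.1 (hF.1 x)
  have : {c : C(K, ℝ) | (∀ x, |c x| ≤ R) ∧ ∀ x y, |c x - c y| ≤ L * dist x y} = e.symm '' S := by
    ext c
    constructor
    · intro hc
      exact ⟨e c, hc, e.symm_apply_apply c⟩
    · rintro ⟨F, hF, rfl⟩
      exact hF
  rw [this]
  exact hS.image e.symm.continuous

variable [MeasurableSpace K] [BorelSpace K] (μ : Measure K) [IsFiniteMeasure μ]

/-- continuous functions as elements of `L²` -/
noncomputable def J : C(K, ℝ) →L[ℝ] Lp ℝ 2 μ := ContinuousMap.toLp 2 μ ℝ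

theorem inner_J (f g : C(K, ℝ)) : inner ℝ (J μ f) (J μ g) = ∫ x, f x * g x ∂μ := by
  have h := ContinuousMap.inner_toLp (𝕜 := ℝ) (μ := μ) f g
  rw [J, h]
  refine integral_congr_ae (ae_of_all _ fun x => ?_)
  simp [mul_comm]

theorem J_injective [μ.IsOpenPosMeasure] : Function.Injective (J μ) :=
  ContinuousMap.toLp_injective μ

theorem J_dense : DenseRange (J μ) := ContinuousMap.toLp_denseRange ℝ μ ℝ (by norm_num)

theorem Abound (x : K) (u : Lp ℝ 2 μ) :
    |inner ℝ (J μ (kf x)) u| ≤ ‖J μ‖ * Metric.diam (univ : Set K) * ‖u‖ := by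
  refine (abs_real_inner_le_norm _ _).trans ?_
  refine mul_le_mul_of_nonneg_right ?_ (norm_nonneg _)
  exact ((J μ).le_opNorm _).trans (mul_le_mul_of_nonneg_left (kf_norm x) (norm_nonneg _))

theorem Alip (x y : K) (u : Lp ℝ 2 μ) :
    |inner ℝ (J μ (kf x)) u - inner ℝ (J μ (kf y)) u| ≤ ‖J μ‖ * ‖u‖ * dist x y := by
  rw [← inner_sub_left, ← map_sub]
  refine (abs_real_inner_le_norm _ _).trans ?_
  calc ‖J μ (kf x - kf y)‖ * ‖u‖ ≤ (‖J μ‖ * dist x y) * ‖u‖ := by
        refine mul_le_mul_of_nonneg_right ?_ (norm_nonneg _)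
        exact ((J μ).le_opNorm _).trans (mul_le_mul_of_nonneg_left (kf_dist x y) (norm_nonneg _))
    _ = ‖J μ‖ * ‖u‖ * dist x y := by ring

/-- the integral operator, with values in the continuous functions -/
noncomputable def Aop : Lp ℝ 2 μ →L[ℝ] C(K, ℝ) :=
  LinearMap.mkContinuous
    { toFun := fun u => ⟨fun x => inner ℝ (J μ (kf x)) u, by
        refine (LipschitzWith.of_dist_le_mul (K := (‖J μ‖ * ‖u‖).toNNReal) fun x y => ?_).continuous
        rw [Real.coe_toNNReal _ (by positivity)]
        exact Alip μ x y u⟩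
      map_add' := fun u w => by
        ext x
        show inner ℝ (J μ (kf x)) (u + w) = inner ℝ (J μ (kf x)) u + inner ℝ (J μ (kf x)) w
        exact inner_add_right _ _ _
      map_smul' := fun c u => by
        ext x
        show inner ℝ (J μ (kf x)) (c • u) = c * inner ℝ (J μ (kf x)) u
        exact real_inner_smul_right _ _ _ }
    (‖J μ‖ * Metric.diam (univ : Set K)) (fun u => by
      rw [ContinuousMap.norm_le _ (by positivity)]
      exact fun x => Abound μ x u)

theorem Aop_apply (u : Lp ℝ 2 μ) (x : K) : Aop μ u x = inner ℝ (J μ (kf x)) u := rfl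

theorem Aop_J (f : C(K, ℝ)) (x : K) : Aop μ (J μ f) x = ∫ y, dist x y * f y ∂μ := by
  rw [Aop_apply, inner_J]
  rfl

theorem Aop_compact : IsCompactOperator (Aop μ) := by
  rw [isCompactOperator_iff_exists_mem_nhds_image_subset_compact]
  refine ⟨Metric.closedBall 0 1, Metric.closedBall_mem_nhds _ one_pos, _,
    isCompact_lip (K := K) (‖J μ‖ * Metric.diam (univ : Set K)) (‖J μ‖), ?_⟩
  rintro _ ⟨u, hu, rfl⟩
  have hu1 : ‖u‖ ≤ 1 := by simpa using hu
  refine ⟨fun x => ?_, fun x y => ?_⟩
  · rw [Aop_apply]
    refine (Abound μ x u).trans ?_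
    have : 0 ≤ ‖J μ‖ * Metric.diam (univ : Set K) := by positivity
    nlinarith
  · rw [Aop_apply, Aop_apply]
    refine (Alip μ x y u).trans ?_
    have h0 : (0 : ℝ) ≤ ‖J μ‖ := by positivity
    have h1 : ‖J μ‖ * ‖u‖ ≤ ‖J μ‖ * 1 := mul_le_mul_of_nonneg_left hu1 h0
    have h2 : ‖J μ‖ * ‖u‖ * dist x y ≤ ‖J μ‖ * 1 * dist x y := mul_le_mul_of_nonneg_right h1 dist_nonneg
    linarith

/-- the operator on `L²` -/
noncomputable def TE : Lp ℝ 2 μ →L[ℝ] Lp ℝ 2 μ := (J μ).comp (Aop μ)

/-- the operator on the continuous functions -/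
noncomputable def TC : C(K, ℝ) →L[ℝ] C(K, ℝ) := (Aop μ).comp (J μ)

theorem TE_compact : IsCompactOperator (TE μ) := (Aop_compact μ).clm_comp (J μ)

theorem TC_compact : IsCompactOperator (TC μ) := (Aop_compact μ).comp_clm (J μ)

theorem TC_apply (f : C(K, ℝ)) (x : K) : TC μ f x = ∫ y, dist x y * f y ∂μ := Aop_J μ f x

theorem TE_symm : (TE μ).IsSymmetric := by
  intro u w
  refine (J_dense μ).induction_on₂ (p := fun u w => inner ℝ (TE μ u) w = inner ℝ u (TE μ w)) ?_ ?_ u w
  · exact isClosed_eq (((TE μ).continuous.comp continuous_fst).inner continuous_snd)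
      (continuous_fst.inner ((TE μ).continuous.comp continuous_snd))
  · intro f g
    show inner ℝ (J μ (Aop μ (J μ f))) (J μ g) = inner ℝ (J μ f) (J μ (Aop μ (J μ g)))
    rw [inner_J, inner_J]
    have h1 : ∀ x, Aop μ (J μ f) x * g x = ∫ y, dist x y * f y * g x ∂μ := by
      intro x
      rw [Aop_J, integral_mul_const]
    have h2 : ∀ x, f x * Aop μ (J μ g) x = ∫ y, dist x y * f x * g y ∂μ := by
      intro x
      rw [Aop_J, ← integral_const_mul]
      refine integral_congr_ae (ae_of_all _ fun y => ?_)
      simp only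
      ring
    simp only [h1, h2]
    rw [integral_integral_swap_of_hasCompactSupport]
    · refine integral_congr_ae (ae_of_all _ fun y => ?_)
      simp only
      refine integral_congr_ae (ae_of_all _ fun x => ?_)
      simp only [dist_comm]
    · simp only [Function.uncurry_def]
      fun_prop
    · exact HasCompactSupport.of_compactSpace _

/-- equivariance -/
theorem TC_comp (g : IG K) (hg : MeasurePreserving g μ μ) (f : C(K, ℝ)) :
    TC μ (f.comp (toC g)) = (TC μ f).comp (toC g) := by
  ext x
  rw [TC_apply]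
  show _ = TC μ f (g x)
  rw [TC_apply]
  have hme : MeasurableEmbedding g := by
    have h := (IsometryEquiv.toHomeomorph (g : K ≃ᵢ K)).measurableEmbedding
    exact h
  rw [← hg.integral_comp hme (fun y => dist (g x) y * f y)]
  refine integral_congr_ae (ae_of_all _ fun y => ?_)
  show dist x y * f (g y) = dist (g x) (g y) * f (g y)
  rw [g.dist_map]

variable [μ.IsOpenPosMeasure]

/-- An isometry which fixes all the eigenfunctions with nonzero eigenvalues is the identity. -/
theorem eq_one_of_fix (g : IG K) (hg : MeasurePreserving g μ μ)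
    (h : ∀ (l : ℝ) (v : C(K, ℝ)), l ≠ 0 → TC μ v = l • v → v.comp (toC g) = v) (x : K) : g x = x := by
  have hme : MeasurableEmbedding g := by
    have h := (IsometryEquiv.toHomeomorph (g : K ≃ᵢ K)).measurableEmbedding
    exact h
  have key : ∀ w : C(K, ℝ), TE μ (J μ (w.comp (toC g)) - J μ w) = 0 := by
    intro w
    set z := J μ (w.comp (toC g)) - J μ w with hz
    have h0 := ContinuousLinearMap.orthogonalComplement_iSup_eigenspaces_eq_bot (TE_compact μ) (TE_symm μ)
    have h1 : TE μ z ∈ (⨆ l, End.eigenspace (TE μ : Module.End ℝ (Lp ℝ 2 μ)) l)ᗮ := by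
      rw [← Submodule.iInf_orthogonal, Submodule.mem_iInf]
      intro l
      rw [Submodule.mem_orthogonal]
      intro u hu
      have hu' : TE μ u = l • u := End.mem_eigenspace_iff.1 hu
      have e1 : inner ℝ u (TE μ z) = l * inner ℝ u z := by
        have e0 : inner ℝ (TE μ u) z = inner ℝ u (TE μ z) := TE_symm μ u z
        rw [← e0, hu', real_inner_smul_left]
      rw [e1]
      by_cases hl : l = 0
      · rw [hl, zero_mul]
      · have hc : u = J μ (l⁻¹ • Aop μ u) := by
          rw [map_smul]
          show u = l⁻¹ • (TE μ u)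
          rw [hu', smul_smul, inv_mul_cancel₀ hl, one_smul]
        set c := l⁻¹ • Aop μ u with hcdef
        have hc2 : TC μ c = l • c := by
          show Aop μ (J μ c) = l • c
          rw [← hc, hcdef, smul_smul, mul_inv_cancel₀ hl, one_smul]
        have hc3 := h l c hl hc2
        have e2 : inner ℝ u z = 0 := by
          rw [hc, hz, inner_sub_right, inner_J, inner_J, sub_eq_zero]
          rw [← hg.integral_comp hme (fun y => c y * w y)]
          refine integral_congr_ae (ae_of_all _ fun y => ?_)
          show c y * w (g y) = c (g y) * w (g y)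
          have : c (g y) = c y := congrArg (fun f : C(K, ℝ) => f y) hc3
          rw [this]
        rw [e2, mul_zero]
    rw [h0, Submodule.mem_bot] at h1
    exact h1
  have key2 : ∀ w : C(K, ℝ), TC μ w (g x) = TC μ w x := by
    intro w
    have h1 := key w
    have h2 : Aop μ (J μ (w.comp (toC g)) - J μ w) = 0 := by
      apply J_injective μ
      rw [map_zero]
      exact h1
    rw [map_sub, sub_eq_zero] at h2
    have h3 : TC μ (w.comp (toC g)) = TC μ w := h2
    rw [TC_comp μ g hg] at h3
    exact congrArg (fun f : C(K, ℝ) => f x) h3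
  have h4 : J μ (kf (g x)) = J μ (kf x) := by
    refine (J_dense μ).eq_of_inner_left ℝ ?_
    intro w
    exact key2 w
  have h5 : kf (g x) = kf x := J_injective μ h4
  have h6 : dist (g x) x = dist x x := congrArg (fun f : C(K, ℝ) => f x) h5
  rw [dist_self] at h6
  exact dist_eq_zero.1 h6

end Op

end Pool.Agent.J4H61.PM
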