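import Pool.Agent.J4H61.PM.B

/-!
The compact metric space of small eigenfunctions, and the action of a group on it.
-/

set_option autoImplicit false

universe u v w

namespace Pool.Agent.J4H61.PM

open MeasureTheory Set Filter Topology Module

section Fin
variable {K : Type u} [MetricSpace K] [CompactSpace K]

/-- finitely many points of a dense set determine the elements of a finite dimensional space of functions -/
theorem exists_finset {X : Type w} (i : X → K) (hi : DenseRange i) (V : Submodule ℝ C(K, ℝ))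
    [FiniteDimensional ℝ V] : ∃ F : Finset X, ∀ f ∈ V, (∀ x ∈ F, f (i x) = 0) → f = 0 := by
  classical
  let N : Finset X → Submodule ℝ V := fun F =>
    { carrier := {f | ∀ x ∈ F, (f : C(K, ℝ)) (i x) = 0}
      add_mem' := by
        intro f g hf hg x hx
        show (f : C(K, ℝ)) (i x) + (g : C(K, ℝ)) (i x) = 0
        rw [hf x hx, hg x hx, add_zero]
      zero_mem' := fun x _ => rfl
      smul_mem' := by
        intro c f hf x hx
        show c * (f : C(K, ℝ)) (i x) = 0
        rw [hf x hx, mul_zero] }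
  have hex : ∃ n, ∃ F : Finset X, finrank ℝ (N F) = n := ⟨_, ∅, rfl⟩
  obtain ⟨F, hF⟩ := Nat.find_spec hex
  refine ⟨F, fun f hf h0 => ?_⟩
  by_contra hne
  obtain ⟨x, hx⟩ : ∃ x, f (i x) ≠ 0 := by
    by_contra hcon
    push Not at hcon
    apply hne
    have h1 : (f : K → ℝ) = (0 : C(K, ℝ)) := hi.equalizer f.continuous continuous_const (funext hcon)
    exact DFunLike.coe_injective h1
  have hlt : N (insert x F) < N F := by
    refine lt_of_le_of_ne (fun g hg y hy => hg y (Finset.mem_insert_of_mem hy)) fun heq => ?_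
    have h2 : (⟨f, hf⟩ : V) ∈ N F := h0
    rw [← heq] at h2
    exact hx (h2 x (Finset.mem_insert_self _ _))
  have h3 := Submodule.finrank_lt_finrank_of_lt hlt
  rw [hF] at h3
  exact Nat.find_min hex h3 ⟨_, rfl⟩

end Fin

section Zset
variable {K : Type u} [MetricSpace K] [CompactSpace K] [MeasurableSpace K] [BorelSpace K]
  (μ : Measure K) [IsFiniteMeasure μ]

/-- small eigenfunctions -/
def Zs : Set C(K, ℝ) := {v | ∃ l : ℝ, |l| ≤ ‖TC μ‖ ∧ TC μ v = l • v ∧ ‖v‖ ≤ |l|}

theorem isCompact_Zs : IsCompact (Zs μ) := by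
  have hD : IsCompact (closure (TC μ '' Metric.closedBall 0 1)) :=
    (TC_compact μ).isCompact_closure_image_closedBall 1
  let Q : Set (C(K, ℝ) × ℝ) := (closure (TC μ '' Metric.closedBall 0 1)) ×ˢ (Icc (-‖TC μ‖) ‖TC μ‖)
  have hQ : IsCompact Q := hD.prod isCompact_Icc
  have hcl : IsClosed {p : C(K, ℝ) × ℝ | TC μ p.1 = p.2 • p.1 ∧ ‖p.1‖ ≤ |p.2|} := by
    show IsClosed ({p : C(K, ℝ) × ℝ | TC μ p.1 = p.2 • p.1} ∩ {p : C(K, ℝ) × ℝ | ‖p.1‖ ≤ |p.2|})
    refine IsClosed.inter (isClosed_eq ?_ ?_) (isClosed_le ?_ ?_)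
    · exact (TC μ).continuous.comp continuous_fst
    · exact continuous_snd.smul continuous_fst
    · exact continuous_fst.norm
    · exact continuous_snd.abs
  have h1 := (hQ.inter_right hcl).image continuous_fst
  convert h1 using 1
  ext v
  constructor
  · rintro ⟨l, hl, hv, hn⟩
    refine ⟨(v, l), ⟨⟨?_, abs_le.1 hl⟩, hv, hn⟩, rfl⟩
    apply subset_closure
    by_cases h0 : l = 0
    · have hv0 : v = 0 := by
        rw [h0, abs_zero] at hn
        exact norm_le_zero_iff.1 hn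
      exact ⟨0, by simp, by rw [map_zero, hv0]⟩
    · refine ⟨l⁻¹ • v, ?_, ?_⟩
      · rw [mem_closedBall_zero_iff, norm_smul, norm_inv, Real.norm_eq_abs]
        rw [inv_mul_le_one₀ (abs_pos.2 h0)]
        exact hn
      · rw [map_smul, hv, smul_smul, inv_mul_cancel₀ h0, one_smul]
  · rintro ⟨⟨v', l⟩, ⟨⟨-, hl⟩, hv, hn⟩, rfl⟩
    exact ⟨l, abs_le.2 hl, hv, hn⟩

theorem finite_eigen [μ.IsOpenPosMeasure] {l : ℝ} (hl : l ≠ 0) :
    FiniteDimensional ℝ (End.eigenspace (TC μ : Module.End ℝ C(K, ℝ)) l) := by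
  have h1 := ContinuousLinearMap.finite_dimensional_eigenspace (TE_compact μ) l hl
  let L : End.eigenspace (TC μ : Module.End ℝ C(K, ℝ)) l →ₗ[ℝ]
      End.eigenspace (TE μ : Module.End ℝ (Lp ℝ 2 μ)) l :=
    LinearMap.restrict (J μ : C(K, ℝ) →ₗ[ℝ] Lp ℝ 2 μ) (by
      intro v hv
      rw [End.mem_eigenspace_iff] at hv ⊢
      have hv' : TC μ v = l • v := hv
      show J μ (TC μ v) = l • J μ v
      rw [hv', map_smul])
  refine FiniteDimensional.of_injective L ?_
  intro a b hab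
  apply Subtype.ext
  apply J_injective μ
  exact congrArg Subtype.val hab

variable (Γ : Type v) [Group Γ] (ρ : Γ →* IG K)

/-- the action on functions -/
def act (h : Γ) (f : C(K, ℝ)) : C(K, ℝ) := f.comp (toC (ρ h⁻¹))

variable {Γ}

theorem act_apply (h : Γ) (f : C(K, ℝ)) (x : K) : act Γ ρ h f x = f (ρ h⁻¹ x) := rfl

theorem act_norm (h : Γ) (f : C(K, ℝ)) : ‖act Γ ρ h f‖ = ‖f‖ := by
  apply le_antisymm
  · rw [ContinuousMap.norm_le _ (norm_nonneg _)]
    exact fun x => f.norm_coe_le_norm _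
  · rw [ContinuousMap.norm_le _ (norm_nonneg _)]
    intro x
    have h1 := (act Γ ρ h f).norm_coe_le_norm (ρ h x)
    rw [act_apply, map_inv, IG.inv_self] at h1
    exact h1

theorem act_sub (h : Γ) (f g : C(K, ℝ)) : act Γ ρ h (f - g) = act Γ ρ h f - act Γ ρ h g := rfl

theorem act_smul (h : Γ) (c : ℝ) (f : C(K, ℝ)) : act Γ ρ h (c • f) = c • act Γ ρ h f := rfl

theorem act_one (f : C(K, ℝ)) : act Γ ρ 1 f = f := by
  ext x
  rw [act_apply, inv_one, map_one]
  rfl

theorem act_mul (h h' : Γ) (f : C(K, ℝ)) : act Γ ρ (h * h') f = act Γ ρ h (act Γ ρ h' f) := by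
  ext x
  rw [act_apply, act_apply, act_apply, mul_inv_rev, map_mul]
  rfl

variable (hρ : ∀ h, MeasurePreserving (ρ h) μ μ)
include hρ

theorem TC_act (h : Γ) (f : C(K, ℝ)) : TC μ (act Γ ρ h f) = act Γ ρ h (TC μ f) :=
  TC_comp μ (ρ h⁻¹) (hρ h⁻¹) f

theorem act_mem (h : Γ) {f : C(K, ℝ)} (hf : f ∈ Zs μ) : act Γ ρ h f ∈ Zs μ := by
  obtain ⟨l, hl, h1, h2⟩ := hf
  refine ⟨l, hl, ?_, ?_⟩
  · rw [TC_act μ ρ hρ, h1, act_smul]
  · rw [act_norm]
    exact h2

/-- the stabilizer of an element of `Zs` contains the pointwise stabilizer of finitely many points -/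
theorem exists_support [μ.IsOpenPosMeasure] {X : Type w} (i : X → K) (hi : DenseRange i)
    {f : C(K, ℝ)} (hf : f ∈ Zs μ) :
    ∃ F : Finset X, ∀ h : Γ, (∀ x ∈ F, ρ h (i x) = i x) → act Γ ρ h f = f := by
  obtain ⟨l, hl, h1, h2⟩ := hf
  by_cases h0 : l = 0
  · refine ⟨∅, fun h _ => ?_⟩
    have hv0 : f = 0 := by
      rw [h0, abs_zero] at h2
      exact norm_le_zero_iff.1 h2
    rw [hv0]
    rfl
  · have _ := finite_eigen μ h0
    obtain ⟨F, hF⟩ := exists_finset i hi (End.eigenspace (TC μ : Module.End ℝ C(K, ℝ)) l)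
    refine ⟨F, fun h hh => ?_⟩
    rw [← sub_eq_zero]
    refine hF _ ?_ ?_
    · refine Submodule.sub_mem _ ?_ ?_
      · rw [End.mem_eigenspace_iff]
        show TC μ (act Γ ρ h f) = l • act Γ ρ h f
        rw [TC_act μ ρ hρ, h1, act_smul]
      · rw [End.mem_eigenspace_iff]
        exact h1
    · intro x hx
      show act Γ ρ h f (i x) - f (i x) = 0
      rw [act_apply, map_inv]
      have h3 : (ρ h)⁻¹ (i x) = i x := by
        conv_lhs => rw [← hh x hx]
        exact IG.inv_self _ _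
      rw [h3, sub_self]

/-- an element of the group which fixes all small eigenfunctions acts trivially -/
theorem trivial_of_fix [μ.IsOpenPosMeasure] (h : Γ) (hfix : ∀ f ∈ Zs μ, act Γ ρ h f = f) (x : K) :
    ρ h x = x := by
  have h1 : ∀ y, ρ h⁻¹ y = y := by
    refine eq_one_of_fix μ (ρ h⁻¹) (hρ _) ?_
    intro l v hl hv
    show act Γ ρ h v = v
    by_cases hv0 : v = 0
    · rw [hv0]
      rfl
    · have hn : 0 < ‖v‖ := norm_pos_iff.2 hv0
      have hb : |l| ≤ ‖TC μ‖ := by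
        have h2 := (TC μ).le_opNorm v
        rw [hv, norm_smul, Real.norm_eq_abs] at h2
        exact le_of_mul_le_mul_right h2 hn
      have h3 : (|l| / ‖v‖) • v ∈ Zs μ := by
        refine ⟨l, hb, ?_, ?_⟩
        · rw [map_smul, hv, smul_comm]
        · rw [norm_smul, Real.norm_eq_abs, abs_of_nonneg (by positivity), div_mul_cancel₀ _ hn.ne']
      have h4 := hfix _ h3
      rw [act_smul] at h4
      have h5 : |l| / ‖v‖ ≠ 0 := div_ne_zero (abs_ne_zero.2 hl) hn.ne'
      exact smul_right_injective _ h5 h4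
  have h2 := h1 (ρ h x)
  rw [map_inv, IG.inv_self] at h2
  exact h2.symm

end Zset

end Pool.Agent.J4H61.PM
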