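import Mathlib

/-!
Permutation models of set theory with atoms, given by a group and a normal filter of subgroups, and the
statements `M(C, WO)` and `M(TB, WO)` in such a model.
-/

set_option autoImplicit false

universe u v

namespace Pool.Agent.J4H61.PM

/-- A normal filter of subgroups of a group `G`. -/
structure NormalFilter (G : Type v) [Group G] where
  /-- the subgroups in the filter -/
  sets : Set (Subgroup G)
  top_mem : ⊤ ∈ sets
  mem_of_le : ∀ H K : Subgroup G, H ∈ sets → H ≤ K → K ∈ sets
  inf_mem : ∀ H K : Subgroup G, H ∈ sets → K ∈ sets → H ⊓ K ∈ sets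
  conj_mem : ∀ (H : Subgroup G) (g : G), H ∈ sets → H.map (MulAut.conj g).toMonoidHom ∈ sets

variable {G : Type v} [Group G]

/-- `Ev F H P`: the property `P` holds for all `h ∈ H ∩ K`, for some `K` in the filter `F`. -/
def Ev (F : NormalFilter G) (H : Subgroup G) (P : H → Prop) : Prop :=
  ∃ K ∈ F.sets, ∀ h : H, (h : G) ∈ K → P h

/-- A set of the permutation model: a set `X` with an action of a subgroup `H` in the filter, such that the
stabilizer of every element belongs to the filter. -/
structure SymSet (F : NormalFilter G) where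
  /-- a subgroup in the filter which leaves the set invariant -/
  H : Subgroup G
  mem : H ∈ F.sets
  /-- the underlying set -/
  X : Type u
  /-- the action -/
  [act : MulAction H X]
  sym : ∀ x : X, Ev F H fun h => h • x = x

attribute [instance] SymSet.act

variable {F : NormalFilter G}

/-- The subset `S` belongs to the model. -/
def SymSet.SubsetIn (A : SymSet.{u, v} F) (S : Set A.X) : Prop :=
  Ev F A.H fun h => ∀ x ∈ S, h • x ∈ S

/-- The set of subsets `𝒰` belongs to the model. -/
def SymSet.FamilyIn (A : SymSet.{u, v} F) (U : Set (Set A.X)) : Prop :=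
  (∀ S ∈ U, A.SubsetIn S) ∧ Ev F A.H fun h => ∀ S ∈ U, (fun x => h • x) '' S ∈ U

/-- The binary relation `r` belongs to the model. -/
def SymSet.RelIn (A : SymSet.{u, v} F) (r : A.X → A.X → Prop) : Prop :=
  Ev F A.H fun h => ∀ x y, r x y → r (h • x) (h • y)

/-- The metric belongs to the model. -/
def SymSet.MetricIn (A : SymSet.{u, v} F) (_ : MetricSpace A.X) : Prop :=
  Ev F A.H fun h => ∀ x y : A.X, dist (h • x) (h • y) = dist x y

/-- The set is well-orderable in the model: some total order in the model has the property that every nonempty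
subset which belongs to the model has a least element. -/
def SymSet.WellOrderable (A : SymSet.{u, v} F) : Prop :=
  ∃ r : A.X → A.X → Prop, A.RelIn r ∧ (∀ x y, r x y → r y x → x = y) ∧
    (∀ x y z, r x y → r y z → r x z) ∧ (∀ x y, r x y ∨ r y x) ∧
    ∀ S : Set A.X, A.SubsetIn S → S.Nonempty → ∃ m ∈ S, ∀ x ∈ S, r m x

/-- The metric space is compact in the model: every family of open sets which belongs to the model and covers the
space has a finite subfamily which covers the space. -/
def SymSet.CompactIn (A : SymSet.{u, v} F) (_ : MetricSpace A.X) : Prop :=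
  ∀ U : Set (Set A.X), A.FamilyIn U → (∀ S ∈ U, IsOpen S) → ⋃₀ U = Set.univ →
    ∃ V ⊆ U, V.Finite ∧ ⋃₀ V = Set.univ

/-- The metric space is totally bounded. -/
def TotBounded (X : Type u) (_ : MetricSpace X) : Prop :=
  ∀ ε : ℝ, 0 < ε → ∃ S : Finset X, ∀ x, ∃ y ∈ S, dist x y < ε

/-- `M(C, WO)` holds in the model. -/
def MCWO (F : NormalFilter G) : Prop :=
  ∀ (A : SymSet.{u, v} F) (d : MetricSpace A.X), A.MetricIn d → A.CompactIn d → A.WellOrderable

/-- `M(TB, WO)` holds in the model. -/
def MTBWO (F : NormalFilter G) : Prop :=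
  ∀ (A : SymSet.{u, v} F) (d : MetricSpace A.X), A.MetricIn d → TotBounded A.X d → A.WellOrderable

end Pool.Agent.J4H61.PM
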