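import Pool.Agent.J4H61.PM.C
import Pool.Agent.J4H61.PM.Defs

/-!
`M(C, WO)` and `M(TB, WO)` are equivalent in every permutation model.
-/

set_option autoImplicit false

universe u v

namespace Pool.Agent.J4H61.PM

open MeasureTheory Set Filter Topology

variable {G : Type v} [Group G] {F : NormalFilter G}

theorem Ev.mono {H : Subgroup G} {P Q : H → Prop} (h : Ev F H P) (hPQ : ∀ g, P g → Q g) : Ev F H Q := by
  obtain ⟨K, hK, h⟩ := h
  exact ⟨K, hK, fun g hg => hPQ g (h g hg)⟩

theorem Ev.and {H : Subgroup G} {P Q : H → Prop} (h : Ev F H P) (h' : Ev F H Q) :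
    Ev F H fun g => P g ∧ Q g := by
  obtain ⟨K, hK, h⟩ := h
  obtain ⟨K', hK', h'⟩ := h'
  exact ⟨K ⊓ K', F.inf_mem _ _ hK hK', fun g hg => ⟨h g hg.1, h' g hg.2⟩⟩

theorem Ev.of_forall {H : Subgroup G} {P : H → Prop} (h : ∀ g, P g) : Ev F H P :=
  ⟨⊤, F.top_mem, fun g _ => h g⟩

theorem Ev.finset {H : Subgroup G} {X : Type u} (P : X → H → Prop) (S : Finset X)
    (h : ∀ x, Ev F H (P x)) : Ev F H fun g => ∀ x ∈ S, P x g := by
  classical
  induction S using Finset.induction_on with
  | empty => exact Ev.of_forall fun g x hx => absurd hx (Finset.notMem_empty x)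
  | insert a S _ ih =>
    refine ((h a).and ih).mono fun g hg x hx => ?_
    rcases Finset.mem_insert.1 hx with rfl | hx
    · exact hg.1
    · exact hg.2 x hx

/-- a well-orderable set is fixed pointwise by a subgroup in the filter -/
theorem SymSet.WellOrderable.trivial {A : SymSet.{u, v} F} (hA : A.WellOrderable) :
    Ev F A.H fun h => ∀ x : A.X, h • x = x := by
  obtain ⟨r, ⟨K, hK, hr⟩, hanti, -, -, hmin⟩ := hA
  refine ⟨K, hK, fun h hh x => ?_⟩
  by_contra hne
  let T : Set A.X := {x | ∃ h : A.H, (h : G) ∈ K ∧ h • x ≠ x}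
  have hT : ∀ k : A.H, (k : G) ∈ K → ∀ x ∈ T, k • x ∈ T := by
    rintro k hk x ⟨g, hg, hgx⟩
    refine ⟨k * g * k⁻¹, ?_, ?_⟩
    · show (k : G) * (g : G) * (k : G)⁻¹ ∈ K
      exact K.mul_mem (K.mul_mem hk hg) (K.inv_mem hk)
    · rw [smul_smul, inv_mul_cancel_right, mul_smul]
      exact fun h => hgx (smul_left_cancel _ h)
  obtain ⟨m, ⟨g, hg, hgm⟩, hm⟩ := hmin T ⟨K, hK, hT⟩ ⟨x, h, hh, hne⟩
  have hmT : m ∈ T := ⟨g, hg, hgm⟩
  have h1 : r m (g • m) := hm _ (hT g hg m hmT)
  have hg' : ((g⁻¹ : A.H) : G) ∈ K := K.inv_mem hg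
  have h2 : r m (g⁻¹ • m) := hm _ (hT g⁻¹ hg' m hmT)
  have h3 : r (g • m) (g • g⁻¹ • m) := hr g hg _ _ h2
  rw [smul_inv_smul] at h3
  exact hgm (hanti _ _ h3 h1)

/-- a set which is fixed pointwise by a subgroup in the filter is well-orderable -/
theorem SymSet.wellOrderable_of_trivial {A : SymSet.{u, v} F}
    (hA : Ev F A.H fun h => ∀ x : A.X, h • x = x) : A.WellOrderable := by
  classical
  have hwf : WellFounded (WellOrderingRel : A.X → A.X → Prop) := IsWellFounded.wf
  refine ⟨fun x y => ¬ WellOrderingRel y x, ?_, ?_, ?_, ?_, ?_⟩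
  · refine hA.mono fun h hh x y hxy => ?_
    rw [hh, hh]
    exact hxy
  · intro x y hxy hyx
    rcases trichotomous_of WellOrderingRel x y with h | h | h
    · exact absurd h hyx
    · exact h
    · exact absurd h hxy
  · intro x y z hxy hyz hzx
    rcases trichotomous_of WellOrderingRel x y with h | h | h
    · exact hyz (_root_.trans hzx h)
    · exact hyz (h ▸ hzx)
    · exact hxy h
  · intro x y
    by_contra hcon
    push Not at hcon
    exact asymm_of WellOrderingRel hcon.1 hcon.2
  · intro S _ hne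
    exact ⟨hwf.min S hne, hwf.min_mem S hne, fun x hx => hwf.not_lt_min S hx⟩

theorem TotBounded.totallyBounded {X : Type u} {d : MetricSpace X} (h : TotBounded X d) :
    TotallyBounded (univ : Set X) := by
  rw [Metric.totallyBounded_iff]
  intro ε hε
  obtain ⟨S, hS⟩ := h ε hε
  refine ⟨S, S.finite_toSet, fun x _ => ?_⟩
  obtain ⟨y, hy, hxy⟩ := hS x
  exact mem_biUnion (Finset.mem_coe.2 hy) hxy

theorem compactSpace_completion {X : Type u} [MetricSpace X] (h : TotallyBounded (univ : Set X)) :
    CompactSpace (UniformSpace.Completion X) := by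
  rw [← isCompact_univ_iff]
  have h1 := (h.image (UniformSpace.Completion.uniformContinuous_coe X)).closure
  rw [image_univ, UniformSpace.Completion.denseRange_coe.closure_range] at h1
  exact h1.isCompact_of_isClosed isClosed_univ

/-- compact spaces in the model are totally bounded -/
theorem SymSet.CompactIn.totBounded {A : SymSet.{u, v} F} {d : MetricSpace A.X} (hd : A.MetricIn d)
    (hA : A.CompactIn d) : TotBounded A.X d := by
  classical
  intro ε hε
  rcases isEmpty_or_nonempty A.X with hX | hX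
  · exact ⟨∅, fun x => (hX.false x).elim⟩
  have himg : ∀ h : A.H, (∀ x y : A.X, dist (h • x) (h • y) = dist x y) → ∀ x : A.X,
      (fun y => h • y) '' Metric.ball x ε = Metric.ball (h • x) ε := by
    intro h hh x
    ext y
    constructor
    · rintro ⟨z, hz, rfl⟩
      rw [Metric.mem_ball] at hz ⊢
      rw [hh]
      exact hz
    · intro hy
      refine ⟨h⁻¹ • y, ?_, smul_inv_smul h y⟩
      rw [Metric.mem_ball, ← hh, smul_inv_smul]
      exact hy
  have hfam : A.FamilyIn (range fun x : A.X => Metric.ball x ε) := by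
    constructor
    · rintro _ ⟨x, rfl⟩
      refine (Ev.and hd (A.sym x)).mono fun h hh y hy => ?_
      have h1 := himg h hh.1 x
      rw [hh.2] at h1
      show h • y ∈ Metric.ball x ε
      rw [← h1]
      exact ⟨y, hy, rfl⟩
    · refine Ev.mono hd fun h hh => ?_
      rintro _ ⟨x, rfl⟩
      exact ⟨h • x, (himg h hh x).symm⟩
  have hopen : ∀ S ∈ range (fun x : A.X => Metric.ball x ε), IsOpen S := by
    rintro _ ⟨x, rfl⟩
    exact Metric.isOpen_ball
  have hcov : ⋃₀ range (fun x : A.X => Metric.ball x ε) = univ := by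
    rw [sUnion_range]
    exact eq_univ_of_forall fun x => mem_iUnion.2 ⟨x, Metric.mem_ball_self hε⟩
  obtain ⟨V, hVU, hV, hcov⟩ := hA _ hfam hopen hcov
  choose! c hc using fun S (hS : S ∈ V) => hVU hS
  refine ⟨(hV.image c).toFinset, fun x => ?_⟩
  have hx : x ∈ ⋃₀ V := by rw [hcov]; trivial
  obtain ⟨S, hS, hxS⟩ := hx
  refine ⟨c S, by simpa using ⟨S, hS, rfl⟩, ?_⟩
  have h1 := hc S hS
  simp only at h1
  rw [← h1] at hxS
  exact hxS

section Main
variable {X : Type u} [MetricSpace X] {Γ : Type v} [Group Γ] [MulAction Γ X]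

/-- the homomorphism to the isometry group of the completion -/
noncomputable def rho (hiso : ∀ (h : Γ) (x y : X), dist (h • x) (h • y) = dist x y) :
    Γ →* IG (UniformSpace.Completion X) :=
  let _ : IsIsometricSMul Γ X := ⟨fun h => Isometry.of_dist_eq (hiso h)⟩
  let _ : UniformContinuousConstSMul Γ X := ⟨fun h => (isometry_smul X h).uniformContinuous⟩
  let _ : IsIsometricSMul Γ (UniformSpace.Completion X) :=
    ⟨fun h => (isometry_smul X h).completion_map⟩
  { toFun := fun h => (IsometryEquiv.constSMul h : _ ≃ᵢ _)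
    map_one' := IG.ext fun x => one_smul Γ x
    map_mul' := fun g h => IG.ext fun x => mul_smul g h x }

theorem rho_coe (hiso : ∀ (h : Γ) (x y : X), dist (h • x) (h • y) = dist x y) (h : Γ) (x : X) :
    rho hiso h (x : UniformSpace.Completion X) = ((h • x : X) : UniformSpace.Completion X) := by
  let _ : IsIsometricSMul Γ X := ⟨fun h => Isometry.of_dist_eq (hiso h)⟩
  let _ : UniformContinuousConstSMul Γ X := ⟨fun h => (isometry_smul X h).uniformContinuous⟩
  exact (UniformSpace.Completion.coe_smul h x).symm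

end Main

/-- For every totally bounded metric space in the model there is a compact one which is well-orderable if and only
if the given space is. -/
theorem main_pair (A : SymSet.{u, v} F) (d : MetricSpace A.X) (hd : A.MetricIn d)
    (hTB : TotBounded A.X d) : ∃ (B : SymSet.{u, v} F) (dB : MetricSpace B.X),
      B.MetricIn dB ∧ B.CompactIn dB ∧ (A.WellOrderable ↔ B.WellOrderable) := by
  rcases isEmpty_or_nonempty A.X with hX | hX
  · refine ⟨A, d, hd, fun U _ _ _ => ⟨∅, empty_subset _, finite_empty, ?_⟩, Iff.rfl⟩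
    exact eq_univ_of_forall fun x => (hX.false x).elim
  obtain ⟨K0, hK0, hd⟩ := hd
  let H' : Subgroup G := A.H ⊓ K0
  have hH' : H' ∈ F.sets := F.inf_mem _ _ A.mem hK0
  let inc : H' →* A.H := Subgroup.inclusion inf_le_left
  let _ : MulAction H' A.X := MulAction.compHom A.X inc
  have hiso : ∀ (h : H') (x y : A.X), dist (h • x) (h • y) = dist x y := fun h x y =>
    hd (inc h) h.2.2 x y
  let K := UniformSpace.Completion A.X
  have _ : CompactSpace K := compactSpace_completion hTB.totallyBounded
  let _ : MeasurableSpace K := borel K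
  have _ : BorelSpace K := ⟨rfl⟩
  have _ : Nonempty K := ⟨((Classical.arbitrary A.X : A.X) : K)⟩
  obtain ⟨μ, hμ1, hμ2, hμ3⟩ := exists_measure K
  let ρ : H' →* IG K := rho hiso
  have hρ : ∀ h, MeasurePreserving (ρ h) μ μ := fun h => hμ3 _
  let B : SymSet.{u, v} F :=
    { H := H'
      mem := hH'
      X := Zs μ
      act :=
        { smul := fun h f => ⟨act H' ρ h f.1, act_mem μ ρ hρ h f.2⟩
          one_smul := fun f => Subtype.ext (act_one ρ f.1)
          mul_smul := fun g h f => Subtype.ext (act_mul ρ g h f.1) }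
      sym := by
        intro f
        obtain ⟨S, hS⟩ := exists_support μ ρ hρ (fun x : A.X => (x : K))
          UniformSpace.Completion.denseRange_coe f.2
        have h1 : ∀ x : A.X, Ev F H' fun h => h • x = x := by
          intro x
          obtain ⟨K1, hK1, h1⟩ := A.sym x
          exact ⟨K1, hK1, fun h hh => h1 (inc h) hh⟩
        refine (Ev.finset (fun (x : A.X) (h : H') => h • x = x) S h1).mono fun h hh => ?_
        apply Subtype.ext
        refine hS h fun x hx => ?_
        rw [rho_coe hiso, hh x hx] }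
  have hBcomp : CompactSpace B.X := isCompact_iff_compactSpace.1 (isCompact_Zs μ)
  let dB : MetricSpace B.X := inferInstanceAs (MetricSpace (Zs μ))
  refine ⟨B, dB, Ev.of_forall fun h f g => ?_, ?_, fun hA => ?_, fun hB => ?_⟩
  · show dist (act H' ρ h f.1) (act H' ρ h g.1) = dist f.1 g.1
    rw [dist_eq_norm, dist_eq_norm, ← act_sub, act_norm]
  · intro U _ hUo hcov
    obtain ⟨t, ht⟩ := (isCompact_univ (X := B.X)).elim_finite_subcover (fun S : U => (S : Set B.X))
      (fun S => hUo S S.2) (by rw [← sUnion_eq_iUnion, hcov])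
    refine ⟨(fun S : U => (S : Set B.X)) '' (t : Set U), ?_, t.finite_toSet.image _, ?_⟩
    · rintro _ ⟨S, -, rfl⟩
      exact S.2
    · rw [sUnion_image]
      exact univ_subset_iff.1 ht
  · obtain ⟨K2, hK2, h2⟩ := hA.trivial
    refine B.wellOrderable_of_trivial ⟨K2, hK2, fun h hh f => ?_⟩
    have h3 : ρ h⁻¹ = 1 := by
      refine IG.ext fun y => ?_
      have h4 : ∀ x : A.X, ρ h⁻¹ (x : K) = (x : K) := by
        intro x
        rw [rho_coe hiso]
        exact congrArg _ (h2 (inc h⁻¹) (K2.inv_mem hh) x)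
      exact congrFun (UniformSpace.Completion.denseRange_coe.equalizer (ρ h⁻¹).continuous continuous_id
        (funext h4)) y
    apply Subtype.ext
    show act H' ρ h f.1 = f.1
    ext y
    rw [act_apply, h3]
    rfl
  · obtain ⟨K2, hK2, h2⟩ := hB.trivial
    refine A.wellOrderable_of_trivial ⟨H' ⊓ K2, F.inf_mem _ _ hH' hK2, fun h hh x => ?_⟩
    let h' : H' := ⟨h, hh.1⟩
    have h3 : ∀ f ∈ Zs μ, act H' ρ h' f = f := fun f hf => congrArg Subtype.val (h2 h' hh.2 ⟨f, hf⟩)
    have h4 := trivial_of_fix μ ρ hρ h' h3 (x : K)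
    rw [rho_coe hiso] at h4
    exact UniformSpace.Completion.coe_injective A.X h4

theorem main_iff : MCWO.{u, v} F ↔ MTBWO.{u, v} F := by
  refine ⟨fun h A d hd hA => ?_, fun h A d hd hA => h A d hd (hA.totBounded hd)⟩
  obtain ⟨B, dB, h1, h2, h3⟩ := main_pair A d hd hA
  exact h3.2 (h B dB h1 h2)

end Pool.Agent.J4H61.PM
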